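import Pool.Agent.TH813.Ros
import Pool.Agent.Y192.KC.Stm

set_option autoImplicit false

/-!
# The logarithmic Gauss map of a hypersurface in a torus is dominant

If the `u i = θ i g / g` are algebraically dependent, some `x k` is transcendental over the field
which they generate. After an embedding of the function field in the complex numbers, Rosenlicht's
theorem shows that `D g / g - ∑ u i D x i / x i = 0` implies a linear relation between the `u i` and
`1` with rational coefficients, which are the values of a functional at `D g / g`, `D x i / x i`.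
-/

namespace Pool.Agent.Y421.KC

open Pool.Agent.Y192.OG Pool.Agent.Y192.KC Finset

section ev

variable {n : ℕ} {K : Type} [Field K] [Algebra ℂ K]

theorem lau_eq (g : Lau n) : g = ∑ c ∈ g.coeff.support, AddMonoidAlgebra.single c (g.coeff c) := by
  have h := Finsupp.sum_single g.coeff
  rw [Finsupp.sum] at h
  ext c
  rw [AddMonoidAlgebra.coeff_sum]
  conv_lhs => rw [← h]
  simp

theorem ep_eq (x : Fin n → Kˣ) (g : Lau n) :
    ep x g = ∑ c ∈ g.coeff.support, algebraMap ℂ K (g.coeff c) * (xm x c : K) := by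
  conv_lhs => rw [lau_eq g]
  rw [map_sum]
  refine sum_congr rfl fun c _ => ?_
  rw [ep_single, Algebra.smul_def]

theorem ep_dl (x : Fin n → Kˣ) (i : Fin n) (g : Lau n) :
    ep x (dl i g) =
      ∑ c ∈ g.coeff.support, algebraMap ℂ K (g.coeff c) * ((c i : K) * (xm x c : K)) := by
  rw [dl, map_sum]
  refine sum_congr rfl fun c _ => ?_
  rw [ep_single, Algebra.smul_def, map_mul, map_intCast]
  ring

/-- Laurent monomials are linearly independent. -/
theorem lin_ind (x : Fin n → Kˣ) (hx : AlgebraicIndependent ℂ (fun i => (x i : K)))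
    (S : Finset (Fin n → ℤ)) (a : (Fin n → ℤ) → ℂ)
    (h : ∑ c ∈ S, algebraMap ℂ K (a c) * (xm x c : K) = 0) : ∀ c ∈ S, a c = 0 := by
  classical
  set M : Fin n → ℤ := fun i => ∑ c ∈ S, |c i| with hM
  have hM0 : ∀ c ∈ S, ∀ i, 0 ≤ c i + M i := by
    intro c hc i
    have h1 : |c i| ≤ M i := single_le_sum (f := fun c : Fin n → ℤ => |c i|)
      (fun c _ => abs_nonneg _) hc
    have h2 := neg_abs_le (c i)
    linarith
  set e : (Fin n → ℤ) → (Fin n →₀ ℕ) := fun c =>
    Finsupp.equivFunOnFinite.symm (fun i => (c i + M i).toNat) with he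
  have hei : ∀ c i, e c i = (c i + M i).toNat := fun c i => rfl
  have hinj : ∀ c ∈ S, ∀ c' ∈ S, e c = e c' → c = c' := by
    intro c hc c' hc' h1
    funext i
    have h2 : (c i + M i).toNat = (c' i + M i).toNat := by rw [← hei, ← hei, h1]
    have h3 := hM0 c hc i
    have h4 := hM0 c' hc' i
    omega
  have hmon : ∀ c ∈ S, MvPolynomial.aeval (fun i => (x i : K)) (MvPolynomial.monomial (e c) (a c)) =
      (xm x M : K) * (algebraMap ℂ K (a c) * (xm x c : K)) := by
    intro c hc
    rw [MvPolynomial.aeval_monomial, Finsupp.prod_fintype _ _ (fun i => pow_zero _)]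
    have h1 : ∏ i, (x i : K) ^ e c i = (xm x (c + M) : K) := by
      unfold xm
      rw [Units.coe_prod]
      refine prod_congr rfl fun i _ => ?_
      rw [hei, Pi.add_apply]
      obtain ⟨k, hk⟩ := Int.eq_ofNat_of_zero_le (hM0 c hc i)
      rw [hk, Int.toNat_natCast, zpow_natCast, Units.val_pow_eq_pow_val]
    rw [h1, xm_add, Units.val_mul]
    ring
  have h0 : MvPolynomial.aeval (fun i => (x i : K))
      (∑ c ∈ S, MvPolynomial.monomial (e c) (a c)) = 0 := by
    rw [map_sum, sum_congr rfl hmon, ← mul_sum, h, mul_zero]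
  have h1 : (∑ c ∈ S, MvPolynomial.monomial (e c) (a c)) = (0 : MvPolynomial (Fin n) ℂ) :=
    (injective_iff_map_eq_zero _).1 hx _ h0
  intro c hc
  have h2 := congrArg (MvPolynomial.coeff (e c)) h1
  rw [MvPolynomial.coeff_sum, MvPolynomial.coeff_zero, sum_eq_single c] at h2
  · rwa [MvPolynomial.coeff_monomial, if_pos rfl] at h2
  · intro c' hc' hne
    rw [MvPolynomial.coeff_monomial, if_neg]
    exact fun h3 => hne (hinj c' hc' c hc h3)
  · intro h3
    exact absurd hc h3

/-- An element which is transcendental over the field of the `u i`. -/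
theorem exists_trans (x u : Fin n → K) (hx : AlgebraicIndependent ℂ x)
    (hgen : IntermediateField.adjoin ℂ (Set.range x) = ⊤) (hu : ¬ AlgebraicIndependent ℂ u) :
    ∃ k, Transcendental (IntermediateField.adjoin ℂ (Set.range u)) (x k) := by
  by_contra hcon
  push Not at hcon
  apply hu
  have h1 : ∀ z : K, IsAlgebraic (Algebra.adjoin ℂ (Set.range u)) z := by
    intro z
    have hz : z ∈ IntermediateField.adjoin ℂ (Set.range x) := by rw [hgen]; trivial
    induction hz using IntermediateField.adjoin_induction with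
    | mem z hz =>
      obtain ⟨k, rfl⟩ := hz
      have h2 : IsAlgebraic (IntermediateField.adjoin ℂ (Set.range u)) (x k) := by
        by_contra h3
        exact hcon k h3
      exact IntermediateField.isAlgebraic_adjoin_iff.1 h2
    | algebraMap a =>
      exact isAlgebraic_algebraMap (algebraMap ℂ (Algebra.adjoin ℂ (Set.range u)) a)
    | add a b _ _ ha hb => exact ha.add hb
    | inv a _ ha => exact ha.inv
    | mul a b _ _ ha hb => exact ha.mul hb
  have h2 : Algebra.IsAlgebraic (Algebra.adjoin ℂ (Set.range u)) K := ⟨h1⟩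
  exact (Algebra.IsAlgebraic.isTranscendenceBasis_of_le_trdeg_of_finite ℂ u
    (by simpa using hx.cardinalMk_le_trdeg)).1

/-- Function fields embed into the complex numbers, as fields. -/
theorem exists_embed (x : Fin n → K) (hgen : IntermediateField.adjoin ℂ (Set.range x) = ⊤) :
    Nonempty (K →+* ℂ) := by
  have hK : Cardinal.mk K ≤ Cardinal.continuum := by
    have h1 := IntermediateField.cardinalMk_adjoin_le ℂ (Set.range x)
    rw [hgen] at h1
    have h2 : Cardinal.mk (⊤ : IntermediateField ℂ K) = Cardinal.mk K :=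
      Cardinal.mk_congr (IntermediateField.topEquiv (F := ℂ) (E := K)).toEquiv
    rw [h2] at h1
    refine h1.trans ?_
    rw [Cardinal.mk_complex]
    refine max_le (max_le le_rfl ?_) Cardinal.aleph0_le_continuum
    exact (Cardinal.mk_le_aleph0 (α := Set.range x)).trans Cardinal.aleph0_le_continuum
  have hM : Cardinal.mk (AlgebraicClosure K) ≤ Cardinal.continuum := by
    refine (Algebra.IsAlgebraic.cardinalMk_le_max K (AlgebraicClosure K)).trans ?_
    exact max_le hK Cardinal.aleph0_le_continuum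
  have hM' : Cardinal.continuum ≤ Cardinal.mk (AlgebraicClosure K) := by
    rw [← Cardinal.mk_complex]
    exact Cardinal.mk_le_of_injective
      ((algebraMap K (AlgebraicClosure K)).injective.comp (algebraMap ℂ K).injective)
  have hMe : Cardinal.mk (AlgebraicClosure K) = Cardinal.continuum := le_antisymm hM hM'
  have h0 : CharZero K := charZero_of_injective_algebraMap (algebraMap ℂ K).injective
  have h1 : CharZero (AlgebraicClosure K) :=
    charZero_of_injective_algebraMap (algebraMap K (AlgebraicClosure K)).injective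
  obtain ⟨e⟩ := IsAlgClosed.ringEquiv_of_equiv_of_charZero (K := AlgebraicClosure K) (L := ℂ)
    (by rw [hMe]; exact Cardinal.aleph0_lt_continuum)
    (by rw [← Cardinal.eq, hMe, Cardinal.mk_complex])
  exact ⟨(e : AlgebraicClosure K →+* ℂ).comp (algebraMap K (AlgebraicClosure K))⟩

end ev

/-- logarithmic derivatives of monomials -/
theorem der_xm (D : Derivation ℚ ℂ ℂ) {n : ℕ} {K : Type} [Field K] (σ : K →+* ℂ) (x : Fin n → Kˣ)
    (c : Fin n → ℤ) : D (σ (xm x c : K)) =
      σ (xm x c : K) * ∑ i, (c i : ℂ) * (D (σ (x i : K)) / σ (x i : K)) := by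
  have hx : ∀ i, σ (x i : K) ≠ 0 := fun i => (map_ne_zero σ).2 (x i).ne_zero
  have hpow : ∀ (y : ℂ) (_ : y ≠ 0) (m : ℤ), D (y ^ m) = y ^ m * (m * (D y / y)) := by
    intro y hy m
    have hnat : ∀ k : ℕ, D (y ^ k) = y ^ k * (k * (D y / y)) := by
      intro k
      rw [D.leibniz_pow]
      rcases Nat.eq_zero_or_pos k with rfl | hk
      · simp
      · obtain ⟨q, rfl⟩ := Nat.exists_eq_succ_of_ne_zero hk.ne'
        simp only [Nat.succ_eq_add_one, Nat.add_sub_cancel, nsmul_eq_mul, smul_eq_mul]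
        field_simp
        ring
    obtain ⟨k, rfl | rfl⟩ := m.eq_nat_or_neg
    · rw [zpow_natCast, hnat]; push_cast; ring
    · rw [zpow_neg, zpow_natCast, D.leibniz_inv, hnat]
      have := pow_ne_zero k hy
      simp only [smul_eq_mul]
      push_cast
      field_simp
  have hprod : ∀ s : Finset (Fin n), D (∏ i ∈ s, σ (x i : K) ^ c i) =
      (∏ i ∈ s, σ (x i : K) ^ c i) * ∑ i ∈ s, (c i : ℂ) * (D (σ (x i : K)) / σ (x i : K)) := by
    classical
    intro s
    induction s using Finset.induction_on with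
    | empty => simp
    | insert a s ha ih =>
      rw [prod_insert ha, sum_insert ha, D.leibniz, ih, hpow _ (hx a)]
      simp only [smul_eq_mul]
      ring
  have h1 : σ (xm x c : K) = ∏ i, σ (x i : K) ^ c i := by
    unfold xm
    rw [Units.coe_prod, map_prod]
    refine prod_congr rfl fun i _ => ?_
    rw [Units.val_zpow_eq_zpow_val, map_zpow₀]
  rw [h1]
  exact hprod univ

/-- The logarithmic Gauss map of a hypersurface in a torus is dominant. -/
theorem t_gauss : St_gauss := by
  classical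
  intro K _ _ n x g hx hgen hg hsupp
  by_contra hdep
  obtain ⟨u, hu⟩ : ∃ u : Fin n → K, u = fun i => ep x (dl i g) / ep x g := ⟨_, rfl⟩
  rw [← hu] at hdep
  obtain ⟨k, hk⟩ := exists_trans (fun i => (x i : K)) u hx hgen hdep
  obtain ⟨σ⟩ := exists_embed (fun i => (x i : K)) hgen
  have hG0 : ep x g ≠ 0 := by
    intro h0
    rw [ep_eq] at h0
    obtain ⟨c, hc⟩ : g.coeff.support.Nonempty := by
      rw [Finset.nonempty_iff_ne_empty]
      intro he
      apply hg
      rw [lau_eq g, he, sum_empty]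
    exact (Finsupp.mem_support_iff.1 hc) (lin_ind x hx _ _ h0 c hc)
  -- the field of constants and of the `u i`
  obtain ⟨E, hE⟩ : ∃ E : IntermediateField ℂ K, E = IntermediateField.adjoin ℂ (Set.range u) :=
    ⟨_, rfl⟩
  rw [← hE] at hk
  have huE : ∀ i, u i ∈ E := fun i => by
    rw [hE]; exact IntermediateField.subset_adjoin _ _ ⟨i, rfl⟩
  let E' : IntermediateField ℚ ℂ := (E.toSubfield.map σ).toIntermediateField
    (fun q => by
      rw [eq_ratCast]
      exact SubfieldClass.ratCast_mem (E.toSubfield.map σ) q)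
  have hmemE : ∀ z ∈ E, σ z ∈ E' := fun z hz => ⟨z, hz, rfl⟩
  have hCE : ∀ a : ℂ, σ (algebraMap ℂ K a) ∈ E' := fun a => hmemE _ (E.algebraMap_mem a)
  have htr : Transcendental E' (σ (x k : K)) := by
    intro halg
    apply hk
    let φ : E →+* E' :=
      { toFun := fun z => ⟨σ z, hmemE z z.2⟩
        map_one' := Subtype.ext (by simp)
        map_mul' := fun a b => Subtype.ext (by simp)
        map_zero' := Subtype.ext (by simp)
        map_add' := fun a b => Subtype.ext (by simp) }
    refine halg.of_ringHom_of_comp_eq φ σ ?_ σ.injective (RingHom.ext fun z => rfl)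
    rintro ⟨w, z, hz, rfl⟩
    exact ⟨⟨z, hz⟩, rfl⟩
  obtain ⟨K₁, D₁, -, -, hD₁⟩ := Pool.Agent.TH813.Ros.exists_setup E' htr
  obtain ⟨D, hDdef⟩ : ∃ D : Derivation ℚ ℂ ℂ, D = (D₁.restrictScalars E').restrictScalars ℚ :=
    ⟨_, rfl⟩
  have hDE : ∀ w ∈ E', D w = 0 := by
    intro w hw
    rw [hDdef]
    exact (D₁.restrictScalars E').map_algebraMap (⟨w, hw⟩ : E')
  have hDx : D (σ (x k : K)) = 1 := by rw [hDdef]; exact hD₁
  -- the logarithmic derivative of `g`
  have hlog : ∀ D : Derivation ℚ ℂ ℂ, (∀ w ∈ E', D w = 0) →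
      D (σ (ep x g)) / σ (ep x g) = ∑ i, σ (u i) * (D (σ (x i : K)) / σ (x i : K)) := by
    intro D hD
    have hσg : σ (ep x g) ≠ 0 := (map_ne_zero σ).2 hG0
    rw [div_eq_iff hσg]
    have h1 : D (σ (ep x g)) = ∑ i, σ (ep x (dl i g)) * (D (σ (x i : K)) / σ (x i : K)) := by
      rw [ep_eq, map_sum, map_sum]
      simp only [ep_dl, map_sum, sum_mul]
      rw [sum_comm]
      refine sum_congr rfl fun c _ => ?_
      rw [map_mul, D.leibniz, hD _ (hCE _), der_xm, smul_zero, add_zero, smul_eq_mul, mul_sum,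
        mul_sum]
      refine sum_congr rfl fun i _ => ?_
      rw [map_mul, map_mul, map_intCast]
      ring
    rw [h1, sum_mul]
    refine sum_congr rfl fun i _ => ?_
    rw [hu, map_div₀]
    field_simp
  -- Rosenlicht
  obtain ⟨β, hβ⟩ : ∃ β : Fin (n + 1) → ℂ, β = Fin.cons 1 (fun i => - σ (u i)) := ⟨_, rfl⟩
  obtain ⟨f, hf⟩ : ∃ f : Fin (n + 1) → ℂ, f = Fin.cons (σ (ep x g)) (fun i => σ (x i : K)) :=
    ⟨_, rfl⟩
  have hros := Pool.Agent.TH813.Ros.rational E' β f (by
    intro j
    rw [hβ]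
    refine Fin.cases ?_ (fun i => ?_) j
    · exact E'.one_mem
    · exact E'.neg_mem (hmemE _ (huE i))) (by
    intro j
    rw [hf]
    refine Fin.cases ?_ (fun i => ?_) j
    · exact (map_ne_zero σ).2 hG0
    · exact (map_ne_zero σ).2 (x i).ne_zero) (by
    intro D hD
    rw [Fin.sum_univ_succ, hβ, hf]
    simp only [Fin.cons_zero, Fin.cons_succ, one_mul]
    rw [hlog D hD, ← sum_add_distrib]
    exact sum_eq_zero fun i _ => by ring)
  -- a rational functional which does not vanish at `D (x k) / x k`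
  have hxk : D (σ (x k : K)) / σ (x k : K) ≠ 0 := by
    rw [hDx]
    exact div_ne_zero one_ne_zero ((map_ne_zero σ).2 (x k).ne_zero)
  obtain ⟨lam, hlam⟩ : ∃ lam : ℂ →ₗ[ℚ] ℚ, lam (D (σ (x k : K)) / σ (x k : K)) ≠ 0 := by
    by_contra hcon
    push Not at hcon
    exact hxk ((Module.forall_dual_apply_eq_zero_iff ℚ _).1 hcon)
  -- a rational relation between the `u i`
  have hrel : ((lam (D (σ (ep x g)) / σ (ep x g)) : ℚ) : ℂ) =
      ∑ i, ((lam (D (σ (x i : K)) / σ (x i : K)) : ℚ) : ℂ) * σ (u i) := by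
    rw [← sub_eq_zero]
    refine (Module.forall_dual_apply_eq_zero_iff ℚ _).1 fun ψ => ?_
    have h1 := congrArg lam (hros ψ D hDE)
    rw [Fin.sum_univ_succ, hβ, hf] at h1
    simp only [Fin.cons_zero, Fin.cons_succ] at h1
    have hmul : ∀ (q : ℚ) (v : ℂ), (q : ℂ) * v = q • v := fun q v => by rw [Rat.smul_def]
    rw [map_add, map_sum, map_zero, hmul, map_smul, smul_eq_mul] at h1
    have h2 : ∀ i, lam (((ψ (-σ (u i)) : ℚ) : ℂ) * (D (σ (x i : K)) / σ (x i : K))) =
        - (ψ (σ (u i)) * lam (D (σ (x i : K)) / σ (x i : K))) := fun i => by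
      rw [hmul, map_smul, smul_eq_mul, map_neg, neg_mul]
    rw [sum_congr rfl fun i _ => h2 i, sum_neg_distrib] at h1
    rw [map_sub, map_sum]
    have h3 : ψ ((lam (D (σ (ep x g)) / σ (ep x g)) : ℚ) : ℂ) =
        lam (D (σ (ep x g)) / σ (ep x g)) * ψ 1 := by
      have := hmul (lam (D (σ (ep x g)) / σ (ep x g))) 1
      rw [mul_one] at this
      rw [this, map_smul, smul_eq_mul]
    have h4 : ∀ i, ψ (((lam (D (σ (x i : K)) / σ (x i : K)) : ℚ) : ℂ) * σ (u i)) =
        lam (D (σ (x i : K)) / σ (x i : K)) * ψ (σ (u i)) := fun i => by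
      rw [hmul, map_smul, smul_eq_mul]
    rw [h3, sum_congr rfl fun i _ => h4 i]
    rw [← h1]
    rw [← sub_eq_add_neg, mul_comm (ψ 1)]
    congr 1
    exact sum_congr rfl fun i _ => mul_comm _ _
  -- clear denominators
  obtain ⟨q0, hq0⟩ : ∃ q0 : ℚ, q0 = lam (D (σ (ep x g)) / σ (ep x g)) := ⟨_, rfl⟩
  obtain ⟨q, hq⟩ : ∃ q : Fin n → ℚ, q = fun i => lam (D (σ (x i : K)) / σ (x i : K)) := ⟨_, rfl⟩
  have hqi : ∀ i, lam (D (σ (x i : K)) / σ (x i : K)) = q i := fun i => by rw [hq]
  rw [← hq0] at hrel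
  simp only [hqi] at hrel hlam
  obtain ⟨N, hN, l0, l, hl0, hl⟩ : ∃ (N : ℤ) (_ : N ≠ 0) (l0 : ℤ) (l : Fin n → ℤ),
      (l0 : ℚ) = N * q0 ∧ ∀ i, (l i : ℚ) = N * q i := by
    obtain ⟨b, hb⟩ := IsLocalization.exist_integer_multiples_of_finite (nonZeroDivisors ℤ)
      (Fin.cons q0 q : Fin (n + 1) → ℚ)
    choose t ht using hb
    refine ⟨b, nonZeroDivisors.coe_ne_zero b, t 0, fun i => t i.succ, ?_, fun i => ?_⟩
    · have := ht 0
      simpa [zsmul_eq_mul] using this
    · have := ht i.succ
      simpa [zsmul_eq_mul] using this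
  have hlk : l ≠ 0 := by
    intro h0
    have h1 := hl k
    rw [h0, Pi.zero_apply, Int.cast_zero] at h1
    exact (mul_ne_zero (by exact_mod_cast hN) hlam) h1.symm
  have hrel2 : (l0 : ℂ) = ∑ i, (l i : ℂ) * σ (u i) := by
    have h1 : (l0 : ℂ) = N * (q0 : ℂ) := by exact_mod_cast congrArg (fun z : ℚ => (z : ℂ)) hl0
    have h2 : ∀ i, (l i : ℂ) = N * (q i : ℂ) := fun i => by
      exact_mod_cast congrArg (fun z : ℚ => (z : ℂ)) (hl i)
    rw [h1, hrel, mul_sum]
    refine sum_congr rfl fun i _ => ?_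
    rw [h2, mul_assoc]
  have hrel3 : (l0 : K) = ∑ i, (l i : K) * u i := by
    apply σ.injective
    rw [map_intCast, map_sum, hrel2]
    refine sum_congr rfl fun i _ => ?_
    rw [map_mul, map_intCast]
  have hrel4 : (l0 : K) * ep x g = ∑ i, (l i : K) * ep x (dl i g) := by
    rw [hrel3, sum_mul]
    refine sum_congr rfl fun i _ => ?_
    rw [hu]
    field_simp
  have hrel5 : ∑ c ∈ g.coeff.support,
      algebraMap ℂ K (g.coeff c * ((l0 : ℂ) - ∑ i, (l i : ℂ) * (c i : ℂ))) * (xm x c : K) = 0 := by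
    have h1 : ∑ c ∈ g.coeff.support,
        algebraMap ℂ K (g.coeff c * ((l0 : ℂ) - ∑ i, (l i : ℂ) * (c i : ℂ))) * (xm x c : K) =
        (l0 : K) * ep x g - ∑ i, (l i : K) * ep x (dl i g) := by
      simp only [ep_dl, mul_sum]
      rw [ep_eq, sum_comm, mul_sum, ← sum_sub_distrib]
      refine sum_congr rfl fun c _ => ?_
      rw [map_mul, map_sub, map_sum, map_intCast, mul_sub, sub_mul, mul_sum, sum_mul]
      congr 1
      · ring
      · refine sum_congr rfl fun i _ => ?_
        rw [map_mul, map_intCast, map_intCast]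
        ring
    rw [h1, hrel4, sub_self]
  have h0 := lin_ind x hx _ (fun c => g.coeff c * ((l0 : ℂ) - ∑ i, (l i : ℂ) * (c i : ℂ))) hrel5
  obtain ⟨c, hc, hne⟩ := hsupp l hlk l0
  have h1 := (mul_eq_zero.1 (h0 c hc)).resolve_left (Finsupp.mem_support_iff.1 hc)
  apply hne
  have h2 : ((∑ i, l i * c i : ℤ) : ℂ) = (l0 : ℂ) := by
    push_cast
    rw [sub_eq_zero] at h1
    exact h1.symm
  exact_mod_cast h2

end Pool.Agent.Y421.KC
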